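import Mathlib

namespace Pool.Agent.Results.MP_01ee34_gt.Disproof

/-- Euclidean space `R^(d+1)`. -/
abbrev E (d : ℕ) : Type := EuclideanSpace ℝ (Fin (d + 1))

/-- The unit sphere `S^d` in `R^(d+1)`. -/
def Sph (d : ℕ) : Set (E d) := Metric.sphere 0 1

/-- `F` contains a congruent copy of `A`: some rotation `ρ` in `SO(d+1)` maps `A` into `F`. -/
def HasCopy (d : ℕ) (F A : Set (E d)) : Prop :=
  ∃ ρ ∈ Matrix.specialOrthogonalGroup (Fin (d + 1)) ℝ,
    ∀ x ∈ A, Matrix.toEuclideanLin ρ x ∈ F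

/-- `F` is a closed cover of `S^d`: its members are closed and their union is the sphere. -/
def IsClosedCover (d m : ℕ) (F : Fin m → Set (E d)) : Prop :=
  (∀ i, IsClosed (F i)) ∧ (⋃ i, F i) = Sph d

/-- Bogatyi's strong covering conjecture is false: it is not the case that for all `d ≥ 1`,
`m ≥ 1` and every cover of the unit sphere `S^d` by `m` closed sets there is one member of the
cover that contains a rotated copy of every subset of `S^d` with `d - m + 3` points. -/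
theorem result :
    ¬ (∀ d m : ℕ, 1 ≤ d → 1 ≤ m → ∀ F : Fin m → Set (E d), IsClosedCover d m F →
        ∃ i : Fin m, ∀ A : Finset (E d), (A : Set (E d)) ⊆ Sph d →
          (A.card : ℤ) = (d : ℤ) - (m : ℤ) + 3 → HasCopy d (F i) A) := by
  intro h
  set S : Set (EuclideanSpace ℝ (Fin 3)) := Metric.sphere (0 : EuclideanSpace ℝ (Fin 3)) 1 with hS
  have hnorm : ∀ x : EuclideanSpace ℝ (Fin 3), x ∈ S ↔ x 0 ^ 2 + x 1 ^ 2 + x 2 ^ 2 = 1 := by
    intro x
    rw [hS, mem_sphere_zero_iff_norm, EuclideanSpace.norm_eq, Fin.sum_univ_three,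
      Real.sqrt_eq_one]
    simp only [Real.norm_eq_abs, sq_abs]
  let F : Fin 2 → Set (EuclideanSpace ℝ (Fin 3)) :=
    ![{x | x ∈ S ∧ |x 2| ≤ 11 / 20}, {x | x ∈ S ∧ 11 / 20 ≤ |x 2|}]
  have hSc : IsClosed S := Metric.isClosed_sphere
  have hcont : Continuous fun x : EuclideanSpace ℝ (Fin 3) => |x 2| := by fun_prop
  have hF : ∀ i, IsClosed (F i) := by
    intro i
    fin_cases i
    · exact hSc.inter (isClosed_le hcont continuous_const)
    · exact hSc.inter (isClosed_le continuous_const hcont)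
  have hU : (⋃ i, F i) = Metric.sphere (0 : EuclideanSpace ℝ (Fin (2 + 1))) 1 := by
    ext x
    simp only [Set.mem_iUnion]
    constructor
    · rintro ⟨i, hi⟩
      fin_cases i
      · exact hi.1
      · exact hi.1
    · intro hx
      rcases le_total |x 2| (11 / 20) with h1 | h1
      · exact ⟨0, hx, h1⟩
      · exact ⟨1, hx, h1⟩
  obtain ⟨i, hi⟩ := h 2 2 (by norm_num) (by norm_num) F ⟨hF, hU⟩
  have hmul : ∀ (ρ : Matrix (Fin 3) (Fin 3) ℝ) (x : EuclideanSpace ℝ (Fin 3)),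
      (Matrix.toEuclideanLin ρ x) 2 = ρ 2 0 * x 0 + ρ 2 1 * x 1 + ρ 2 2 * x 2 := by
    intro ρ x
    simp [Matrix.toEuclideanLin, Matrix.toLpLin_apply, Matrix.mulVec, dotProduct,
      Fin.sum_univ_three]
  fin_cases i
  · -- the band misses the orthonormal triple
    let A : Finset (EuclideanSpace ℝ (Fin 3)) :=
      {!₂[(1 : ℝ), 0, 0], !₂[(0 : ℝ), 1, 0], !₂[(0 : ℝ), 0, 1]}
    have h01 : (!₂[(1 : ℝ), 0, 0] : EuclideanSpace ℝ (Fin 3)) ≠ !₂[(0 : ℝ), 1, 0] := by
      intro e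
      have := congrArg (fun v : EuclideanSpace ℝ (Fin 3) => v 0) e
      simp at this
    have h02 : (!₂[(1 : ℝ), 0, 0] : EuclideanSpace ℝ (Fin 3)) ≠ !₂[(0 : ℝ), 0, 1] := by
      intro e
      have := congrArg (fun v : EuclideanSpace ℝ (Fin 3) => v 0) e
      simp at this
    have h12 : (!₂[(0 : ℝ), 1, 0] : EuclideanSpace ℝ (Fin 3)) ≠ !₂[(0 : ℝ), 0, 1] := by
      intro e
      have := congrArg (fun v : EuclideanSpace ℝ (Fin 3) => v 1) e
      simp at this
    have hcard : A.card = 3 := Finset.card_eq_three.2 ⟨_, _, _, h01, h02, h12, rfl⟩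
    have hA : (A : Set (EuclideanSpace ℝ (Fin 3))) ⊆ S := by
      intro x hx
      rw [hnorm]
      simp only [A, Finset.coe_insert, Finset.coe_singleton, Set.mem_insert_iff,
        Set.mem_singleton_iff] at hx
      rcases hx with rfl | rfl | rfl <;> simp
    obtain ⟨ρ, hρ, hr⟩ := hi A hA (by rw [hcard]; norm_num)
    have hO : ρ * ρ.transpose = 1 := by
      have := (Matrix.mem_specialOrthogonalGroup_iff.1 hρ).1
      exact (Matrix.mem_orthogonalGroup_iff (Fin 3) ℝ).1 this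
    have hrow : ρ 2 0 ^ 2 + ρ 2 1 ^ 2 + ρ 2 2 ^ 2 = 1 := by
      have := congrFun (congrFun hO 2) 2
      simp [Matrix.mul_apply, Fin.sum_univ_three] at this
      nlinarith [this]
    have k0 : |ρ 2 0| ≤ 11 / 20 := by
      have h1 := (hr (!₂[(1 : ℝ), 0, 0]) (by simp [A])).2
      have h2 : |(Matrix.toEuclideanLin ρ (!₂[(1 : ℝ), 0, 0])) 2| ≤ 11 / 20 := h1
      rw [hmul] at h2
      simpa using h2
    have k1 : |ρ 2 1| ≤ 11 / 20 := by
      have h1 := (hr (!₂[(0 : ℝ), 1, 0]) (by simp [A])).2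
      have h2 : |(Matrix.toEuclideanLin ρ (!₂[(0 : ℝ), 1, 0])) 2| ≤ 11 / 20 := h1
      rw [hmul] at h2
      simpa using h2
    have k2 : |ρ 2 2| ≤ 11 / 20 := by
      have h1 := (hr (!₂[(0 : ℝ), 0, 1]) (by simp [A])).2
      have h2 : |(Matrix.toEuclideanLin ρ (!₂[(0 : ℝ), 0, 1])) 2| ≤ 11 / 20 := h1
      rw [hmul] at h2
      simpa using h2
    have q0 := sq_le_sq' (by linarith [neg_le_of_abs_le k0]) (le_of_abs_le k0)
    have q1 := sq_le_sq' (by linarith [neg_le_of_abs_le k1]) (le_of_abs_le k1)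
    have q2 := sq_le_sq' (by linarith [neg_le_of_abs_le k2]) (le_of_abs_le k2)
    norm_num at q0 q1 q2
    linarith
  · -- the two caps miss the equilateral triangle on a great circle
    have hs : √(3 : ℝ) ^ 2 = 3 := Real.sq_sqrt (by norm_num)
    have hs0 : 0 < √(3 : ℝ) := Real.sqrt_pos.2 (by norm_num)
    let A : Finset (EuclideanSpace ℝ (Fin 3)) :=
      {!₂[(1 : ℝ), 0, 0], !₂[(-(1 / 2) : ℝ), √3 / 2, 0], !₂[(-(1 / 2) : ℝ), -(√3 / 2), 0]}
    have h01 : (!₂[(1 : ℝ), 0, 0] : EuclideanSpace ℝ (Fin 3)) ≠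
        !₂[(-(1 / 2) : ℝ), √3 / 2, 0] := by
      intro e
      have := congrArg (fun v : EuclideanSpace ℝ (Fin 3) => v 0) e
      norm_num at this
    have h02 : (!₂[(1 : ℝ), 0, 0] : EuclideanSpace ℝ (Fin 3)) ≠
        !₂[(-(1 / 2) : ℝ), -(√3 / 2), 0] := by
      intro e
      have := congrArg (fun v : EuclideanSpace ℝ (Fin 3) => v 0) e
      norm_num at this
    have h12 : (!₂[(-(1 / 2) : ℝ), √3 / 2, 0] : EuclideanSpace ℝ (Fin 3)) ≠
        !₂[(-(1 / 2) : ℝ), -(√3 / 2), 0] := by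
      intro e
      have h3 := congrArg (fun v : EuclideanSpace ℝ (Fin 3) => v 1) e
      simp at h3
      linarith
    have hcard : A.card = 3 := Finset.card_eq_three.2 ⟨_, _, _, h01, h02, h12, rfl⟩
    have hA : (A : Set (EuclideanSpace ℝ (Fin 3))) ⊆ S := by
      intro x hx
      rw [hnorm]
      simp only [A, Finset.coe_insert, Finset.coe_singleton, Set.mem_insert_iff,
        Set.mem_singleton_iff] at hx
      rcases hx with rfl | rfl | rfl
      · simp
      · simp; nlinarith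
      · simp; nlinarith
    obtain ⟨ρ, hρ, hr⟩ := hi A hA (by rw [hcard]; norm_num)
    have k0 := hr (!₂[(1 : ℝ), 0, 0]) (by simp [A])
    have k1 := hr (!₂[(-(1 / 2) : ℝ), √3 / 2, 0]) (by simp [A])
    have k2 := hr (!₂[(-(1 / 2) : ℝ), -(√3 / 2), 0]) (by simp [A])
    have a0 : 11 / 20 ≤ |(Matrix.toEuclideanLin ρ (!₂[(1 : ℝ), 0, 0])) 2| := k0.2
    have a1 : 11 / 20 ≤ |(Matrix.toEuclideanLin ρ (!₂[(-(1 / 2) : ℝ), √3 / 2, 0])) 2| := k1.2
    have a2 : 11 / 20 ≤ |(Matrix.toEuclideanLin ρ (!₂[(-(1 / 2) : ℝ), -(√3 / 2), 0])) 2| := k2.2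
    have hle : ∀ x ∈ S, |x 2| ≤ 1 := by
      intro x hx
      have hx' := (hnorm x).1 hx
      apply abs_le_one_iff_mul_self_le_one.2
      nlinarith [sq_nonneg (x 0), sq_nonneg (x 1)]
    have c0 := hle _ k0.1
    have c1 := hle _ k1.1
    have c2 := hle _ k2.1
    have hsum : (Matrix.toEuclideanLin ρ (!₂[(1 : ℝ), 0, 0])) 2
        + (Matrix.toEuclideanLin ρ (!₂[(-(1 / 2) : ℝ), √3 / 2, 0])) 2
        + (Matrix.toEuclideanLin ρ (!₂[(-(1 / 2) : ℝ), -(√3 / 2), 0])) 2 = 0 := by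
      rw [hmul, hmul, hmul]
      simp
      ring
    clear k0 k1 k2 hr
    revert a0 a1 a2 c0 c1 c2 hsum
    generalize (Matrix.toEuclideanLin ρ (!₂[(1 : ℝ), 0, 0])) 2 = z0
    generalize (Matrix.toEuclideanLin ρ (!₂[(-(1 / 2) : ℝ), √3 / 2, 0])) 2 = z1
    generalize (Matrix.toEuclideanLin ρ (!₂[(-(1 / 2) : ℝ), -(√3 / 2), 0])) 2 = z2
    intro a0 a1 a2 c0 c1 c2 hsum
    rcases abs_cases z0 with h0 | h0 <;> rcases abs_cases z1 with h1 | h1 <;>
      rcases abs_cases z2 with h2 | h2 <;> linarith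

end Pool.Agent.Results.MP_01ee34_gt.Disproof
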